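import Pool.Agent.Helper30.SY.St2

/-!
# Project SY: a permutation from an injective key
-/

set_option autoImplicit false

namespace Pool.Agent.Helper9.SY

open Finset Pool.Agent.Helper30.SY

private def key {n : ℕ} (v : Fin n) (P Q : Finset (Fin n)) (ρP ρQ : Fin n → ℕ) (M : ℕ)
    (x : Fin n) : ℕ :=
  if x = v then 0 else if x ∈ P then 1 + ρP x else
    if x ∈ Q then 1 + M + ρQ x else 1 + 2 * M + x.val

private lemma perm_of_key {n : ℕ} (k : Fin n → ℕ) (hk : Function.Injective k) :
    ∃ π : Equiv.Perm (Fin n), ∀ x, (π x).val = (univ.filter fun y => k y < k x).card := by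
  have hlt : ∀ x : Fin n, (univ.filter fun y => k y < k x).card < n := by
    intro x
    have h1 : (univ.filter fun y => k y < k x) ⊂ (univ : Finset (Fin n)) := by
      rw [Finset.ssubset_univ_iff]
      intro h
      have h2 : x ∈ (univ.filter fun y => k y < k x) := by rw [h]; exact mem_univ x
      simp at h2
    have h3 := Finset.card_lt_card h1
    simpa using h3
  let f : Fin n → Fin n := fun x => ⟨(univ.filter fun y => k y < k x).card, hlt x⟩
  have hmono : ∀ x y : Fin n, k x < k y →
      (univ.filter fun z => k z < k x).card < (univ.filter fun z => k z < k y).card := by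
    intro x y hxy
    apply Finset.card_lt_card
    rw [Finset.ssubset_iff_of_subset]
    · exact ⟨x, by simp [hxy], by simp⟩
    · intro z hz
      simp only [mem_filter, mem_univ, true_and] at hz ⊢
      omega
  have hf : Function.Injective f := by
    intro x y hxy
    have h1 : (univ.filter fun z => k z < k x).card = (univ.filter fun z => k z < k y).card :=
      congrArg Fin.val hxy
    rcases lt_trichotomy (k x) (k y) with h | h | h
    · have := hmono x y h
      omega
    · exact hk h
    · have := hmono y x h
      omega
  exact ⟨Equiv.ofBijective f (Finite.injective_iff_bijective.1 hf), fun x => rfl⟩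

theorem hPRM : StPRM := by
  intro n v P Q ρP ρQ hvP hvQ hd hP hQ
  obtain ⟨M, hM⟩ : ∃ M : ℕ, ∀ x, ρP x < M ∧ ρQ x < M := by
    refine ⟨(univ.sup fun x => ρP x + ρQ x) + 1, fun x => ?_⟩
    have h := Finset.le_sup (f := fun x => ρP x + ρQ x) (mem_univ x)
    have h2 : ρP x + ρQ x ≤ univ.sup fun x => ρP x + ρQ x := h
    constructor <;> omega
  have kv : key v P Q ρP ρQ M v = 0 := by simp [key]
  have kP : ∀ x ∈ P, key v P Q ρP ρQ M x = 1 + ρP x := by
    intro x hx
    have h1 : x ≠ v := by rintro rfl; exact hvP hx
    simp [key, h1, hx]
  have kQ : ∀ x ∈ Q, key v P Q ρP ρQ M x = 1 + M + ρQ x := by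
    intro x hx
    have h1 : x ≠ v := by rintro rfl; exact hvQ hx
    have h2 : x ∉ P := fun h => Finset.disjoint_left.1 hd h hx
    simp [key, h1, h2, hx]
  have kR : ∀ x, x ≠ v → x ∉ P → x ∉ Q → key v P Q ρP ρQ M x = 1 + 2 * M + x.val := by
    intro x h1 h2 h3
    simp [key, h1, h2, h3]
  have hinj : Function.Injective (key v P Q ρP ρQ M) := by
    intro x y hxy
    by_cases hxv : x = v
    · by_cases hyv : y = v
      · rw [hxv, hyv]
      · exfalso
        rw [hxv, kv] at hxy
        by_cases h1 : y ∈ P
        · rw [kP y h1] at hxy; omega
        · by_cases h2 : y ∈ Q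
          · rw [kQ y h2] at hxy; omega
          · rw [kR y hyv h1 h2] at hxy; omega
    · by_cases hyv : y = v
      · exfalso
        rw [hyv, kv] at hxy
        by_cases h1 : x ∈ P
        · rw [kP x h1] at hxy; omega
        · by_cases h2 : x ∈ Q
          · rw [kQ x h2] at hxy; omega
          · rw [kR x hxv h1 h2] at hxy; omega
      · have hx := hM x
        have hy := hM y
        by_cases h1 : x ∈ P
        · rw [kP x h1] at hxy
          by_cases h2 : y ∈ P
          · rw [kP y h2] at hxy
            exact hP x h1 y h2 (by omega)
          · by_cases h3 : y ∈ Q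
            · rw [kQ y h3] at hxy; omega
            · rw [kR y hyv h2 h3] at hxy; omega
        · by_cases h2 : x ∈ Q
          · rw [kQ x h2] at hxy
            by_cases h3 : y ∈ P
            · rw [kP y h3] at hxy; omega
            · by_cases h4 : y ∈ Q
              · rw [kQ y h4] at hxy
                exact hQ x h2 y h4 (by omega)
              · rw [kR y hyv h3 h4] at hxy; omega
          · rw [kR x hxv h1 h2] at hxy
            by_cases h3 : y ∈ P
            · rw [kP y h3] at hxy; omega
            · by_cases h4 : y ∈ Q
              · rw [kQ y h4] at hxy; omega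
              · rw [kR y hyv h3 h4] at hxy
                exact Fin.ext (by omega)
  obtain ⟨π, hπ⟩ := perm_of_key _ hinj
  refine ⟨π, ?_, ?_, ?_⟩
  · rw [hπ, kv]
    simp
  · intro x hx
    rw [hπ, kP x hx]
    have e : (univ.filter fun y => key v P Q ρP ρQ M y < 1 + ρP x) =
        insert v (P.filter fun y => ρP y < ρP x) := by
      ext y
      simp only [mem_filter, mem_univ, true_and, mem_insert]
      have hx' := hM x
      by_cases hyv : y = v
      · rw [hyv, kv]
        simp
      · by_cases h1 : y ∈ P
        · rw [kP y h1]
          simp only [hyv, h1, false_or, true_and]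
          omega
        · by_cases h2 : y ∈ Q
          · rw [kQ y h2]
            simp only [hyv, h1, false_or, false_and, iff_false]
            omega
          · rw [kR y hyv h1 h2]
            simp only [hyv, h1, false_or, false_and, iff_false]
            omega
    rw [e, card_insert_of_notMem (fun h => hvP (mem_filter.1 h).1)]
    unfold rk
    omega
  · intro x hx
    rw [hπ, kQ x hx]
    have e : (univ.filter fun y => key v P Q ρP ρQ M y < 1 + M + ρQ x) =
        insert v (P ∪ (Q.filter fun y => ρQ y < ρQ x)) := by
      ext y
      simp only [mem_filter, mem_univ, true_and, mem_insert, mem_union]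
      have hx' := hM x
      have hy' := hM y
      by_cases hyv : y = v
      · rw [hyv, kv]
        simp
      · by_cases h1 : y ∈ P
        · rw [kP y h1]
          simp only [hyv, h1, false_or, true_or, iff_true]
          omega
        · by_cases h2 : y ∈ Q
          · rw [kQ y h2]
            simp only [hyv, h1, h2, false_or, true_and]
            omega
          · rw [kR y hyv h1 h2]
            simp only [hyv, h1, h2, false_or, false_and, iff_false]
            omega
    have hdj : Disjoint P (Q.filter fun y => ρQ y < ρQ x) :=
      Finset.disjoint_of_subset_right (filter_subset _ _) hd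
    rw [e, card_insert_of_notMem, card_union_of_disjoint hdj]
    · unfold rk
      omega
    · intro h
      rcases mem_union.1 h with h | h
      · exact hvP h
      · exact hvQ (mem_filter.1 h).1

end Pool.Agent.Helper9.SY
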